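import Mathlib

/-! Algebraic part: a family of `3a` forms of degree at most `3` in `a + a^2 + a^4` variables
whose quotient ring has a nonzero socle element. -/

set_option autoImplicit false

open MvPolynomial RingTheory.Sequence

namespace Pool.Agent.H794R3.Stillman

/-- The variables form a weakly regular sequence. -/
lemma weaklyRegular_vars {σ : Type} (K : Type) [Field K] (l : List σ) (hl : l.Nodup) :
    IsWeaklyRegular (MvPolynomial σ K) (l.map (fun v => (X v : MvPolynomial σ K))) := by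
  constructor
  intro i hi
  have hi' : i < l.length := by simpa using hi
  have hideal : (Ideal.ofList ((l.map (fun v => (X v : MvPolynomial σ K))).take i) • ⊤ :
      Submodule (MvPolynomial σ K) (MvPolynomial σ K)) =
      Ideal.span (X '' {v | v ∈ l.take i} : Set (MvPolynomial σ K)) := by
    rw [smul_eq_mul, Ideal.mul_top, Ideal.ofList]
    congr 1
    ext z
    simp [← List.map_take]
  rw [isSMulRegular_iff_right_eq_zero_of_smul]
  intro z hz
  obtain ⟨f, rfl⟩ := Submodule.Quotient.mk_surjective _ z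
  rw [← Submodule.Quotient.mk_smul, Submodule.Quotient.mk_eq_zero, hideal] at hz
  rw [Submodule.Quotient.mk_eq_zero, hideal]
  rw [List.getElem_map, smul_eq_mul] at hz
  rw [mem_ideal_span_X_image] at hz ⊢
  intro m hm
  have hm2 : (m + Finsupp.single l[i] 1) ∈ (X l[i] * f).support := by
    rw [MvPolynomial.mem_support_iff, mul_comm, MvPolynomial.coeff_mul_X]
    exact MvPolynomial.mem_support_iff.1 hm
  obtain ⟨k, hk, hk2⟩ := hz _ hm2
  refine ⟨k, hk, ?_⟩
  have hne : l[i] ≠ k := by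
    intro heq
    rw [← heq] at hk
    have hk' : l[i] ∈ l.take i := hk
    rw [List.mem_take_iff_getElem] at hk'
    obtain ⟨j, hj, hj2⟩ := hk'
    have := (List.Nodup.getElem_inj_iff hl).1 hj2
    omega
  simpa [Finsupp.single_apply, hne] using hk2

section colon

variable {R : Type*} [CommRing R] {ι : Type*} [Fintype ι] [DecidableEq ι]

/-- the basic colon computation -/
lemma prod_mul_mem (I : Ideal R) (x c : ι → R) (hx : ∀ i, x i ^ 2 ∈ I)
    (h : ∑ i, x i * c i ∈ I) (i : ι) : (∏ l, x l) * c i ∈ I := by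
  have h1 : (∏ l ∈ Finset.univ.erase i, x l) * ∑ l, x l * c l ∈ I := I.mul_mem_left _ h
  rw [Finset.mul_sum, ← Finset.add_sum_erase _ _ (Finset.mem_univ i)] at h1
  have h2 : ∑ l ∈ Finset.univ.erase i, (∏ l ∈ Finset.univ.erase i, x l) * (x l * c l) ∈ I := by
    apply I.sum_mem
    intro l hl
    rw [← Finset.mul_prod_erase _ _ hl]
    have : x l * (∏ x_1 ∈ (Finset.univ.erase i).erase l, x x_1) * (x l * c l) =
      ((∏ x_1 ∈ (Finset.univ.erase i).erase l, x x_1) * c l) * x l ^ 2 := by ring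
    rw [this]
    exact I.mul_mem_left _ (hx l)
  have h3 := (I.add_mem_iff_left h2).1 h1
  rw [← Finset.mul_prod_erase _ _ (Finset.mem_univ i)]
  have : x i * (∏ x_1 ∈ Finset.univ.erase i, x x_1) * c i =
    (∏ l ∈ Finset.univ.erase i, x l) * (x i * c i) := by ring
  rw [this]
  exact h3

end colon

section gens

variable {R : Type*} [CommRing R] (a : ℕ)

/-- index set of the variables -/
abbrev V : Type := Fin a ⊕ ((Fin a × Fin a) ⊕ ((Fin a × Fin a) × (Fin a × Fin a)))

/-- index set of the generators -/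
abbrev G : Type := Fin a ⊕ (Fin a ⊕ Fin a)

/-- the generators, for a family `t` of ring elements indexed by the variables -/
def gen (t : V a → R) : G a → R
  | Sum.inl i => t (Sum.inl i) ^ 2
  | Sum.inr (Sum.inl j) => ∑ i : Fin a, t (Sum.inl i) * t (Sum.inr (Sum.inl (i, j))) ^ 2
  | Sum.inr (Sum.inr j) => ∑ i : Fin a, t (Sum.inl i) *
      ∑ p : Fin a × Fin a, t (Sum.inr (Sum.inl p)) * t (Sum.inr (Sum.inr (p, (i, j))))

/-- the socle element -/
def soc (t : V a → R) : R :=
  (∏ i : Fin a, t (Sum.inl i)) * ∏ p : Fin a × Fin a, t (Sum.inr (Sum.inl p))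

lemma soc_killed (t : V a → R) (I : Ideal R) (h : ∀ g : G a, gen a t g ∈ I) (v : V a) :
    t v * soc a t ∈ I := by
  have h1 : ∀ i : Fin a, t (Sum.inl i) ^ 2 ∈ I := fun i => h (Sum.inl i)
  have h2 : ∀ p : Fin a × Fin a,
      (∏ i : Fin a, t (Sum.inl i)) * t (Sum.inr (Sum.inl p)) ^ 2 ∈ I := by
    rintro ⟨i, j⟩
    exact prod_mul_mem I (fun i => t (Sum.inl i)) (fun i => t (Sum.inr (Sum.inl (i, j))) ^ 2) h1
      (h (Sum.inr (Sum.inl j))) i
  have h3 : ∀ q : Fin a × Fin a, (∏ i : Fin a, t (Sum.inl i)) *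
      ∑ p : Fin a × Fin a, t (Sum.inr (Sum.inl p)) * t (Sum.inr (Sum.inr (p, q))) ∈ I := by
    rintro ⟨i, j⟩
    exact prod_mul_mem I (fun i => t (Sum.inl i)) (fun i => ∑ p : Fin a × Fin a,
      t (Sum.inr (Sum.inl p)) * t (Sum.inr (Sum.inr (p, (i, j))))) h1
      (h (Sum.inr (Sum.inr j))) i
  rcases v with i | p | ⟨p, q⟩
  · have : t (Sum.inl i) * soc a t =
      ((∏ l ∈ Finset.univ.erase i, t (Sum.inl l)) * ∏ p : Fin a × Fin a, t (Sum.inr (Sum.inl p)))
        * t (Sum.inl i) ^ 2 := by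
      rw [soc, ← Finset.mul_prod_erase Finset.univ (fun l => t (Sum.inl l)) (Finset.mem_univ i)]
      ring
    rw [this]
    exact I.mul_mem_left _ (h1 i)
  · have : t (Sum.inr (Sum.inl p)) * soc a t =
      (∏ l ∈ Finset.univ.erase p, t (Sum.inr (Sum.inl l))) *
        ((∏ i : Fin a, t (Sum.inl i)) * t (Sum.inr (Sum.inl p)) ^ 2) := by
      rw [soc, ← Finset.mul_prod_erase Finset.univ (fun l => t (Sum.inr (Sum.inl l)))
        (Finset.mem_univ p)]
      ring
    rw [this]
    exact I.mul_mem_left _ (h2 p)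
  · let J : Ideal R := Submodule.comap (LinearMap.mulLeft R (∏ i : Fin a, t (Sum.inl i))) I
    have hJ : ∀ r, r ∈ J ↔ (∏ i : Fin a, t (Sum.inl i)) * r ∈ I := fun r => Iff.rfl
    have := prod_mul_mem J (fun p => t (Sum.inr (Sum.inl p)))
      (fun p => t (Sum.inr (Sum.inr (p, q)))) (fun p => (hJ _).2 (h2 p)) ((hJ _).2 (h3 q)) p
    rw [hJ] at this
    have e : t (Sum.inr (Sum.inr (p, q))) * soc a t = (∏ i : Fin a, t (Sum.inl i)) *
      ((∏ p : Fin a × Fin a, t (Sum.inr (Sum.inl p))) * t (Sum.inr (Sum.inr (p, q)))) := by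
      rw [soc]; ring
    rw [e]
    exact this

end gens

section poly

variable (K : Type) [Field K] (a : ℕ) {σ : Type} (e : V a ≃ σ)

/-- the variables -/
noncomputable def tv : V a → MvPolynomial σ K := fun v => X (e v)

lemma gen_homogeneous (g : G a) :
    ∃ k, k ≤ 3 ∧ (gen a (tv K a e) g).IsHomogeneous k := by
  rcases g with i | j | j
  · refine ⟨2, by norm_num, ?_⟩
    have := (isHomogeneous_X K (e (Sum.inl i))).pow 2
    rw [one_mul] at this
    exact this
  · refine ⟨3, le_rfl, ?_⟩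
    apply IsHomogeneous.sum
    intro i _
    exact (isHomogeneous_X K _).mul ((isHomogeneous_X K _).pow 2)
  · refine ⟨3, le_rfl, ?_⟩
    apply IsHomogeneous.sum
    intro i _
    refine (isHomogeneous_X K _).mul (n := 2) ?_
    apply IsHomogeneous.sum
    intro p _
    exact (isHomogeneous_X K _).mul (isHomogeneous_X K _)

/-- exponents generating a monomial ideal which contains all generators -/
def expo : Set (σ →₀ ℕ) :=
  {d | (∃ i, d = Finsupp.single (e (Sum.inl i)) 2) ∨
    (∃ p, d = Finsupp.single (e (Sum.inr (Sum.inl p))) 2) ∨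
    (∃ r, d = Finsupp.single (e (Sum.inr (Sum.inr r))) 1)}

lemma gen_mem (g : G a) :
    gen a (tv K a e) g ∈ Ideal.span ((fun d => monomial d (1 : K)) '' expo a e) := by
  set J := Ideal.span ((fun d => monomial d (1 : K)) '' expo a e)
  have h1 : ∀ i, (tv K a e (Sum.inl i)) ^ 2 ∈ J := by
    intro i
    apply Ideal.subset_span
    exact ⟨_, Or.inl ⟨i, rfl⟩, by simp [tv, X_pow_eq_monomial]⟩
  have h2 : ∀ p, (tv K a e (Sum.inr (Sum.inl p))) ^ 2 ∈ J := by
    intro p
    apply Ideal.subset_span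
    exact ⟨_, Or.inr (Or.inl ⟨p, rfl⟩), by simp [tv, X_pow_eq_monomial]⟩
  have h3 : ∀ r, tv K a e (Sum.inr (Sum.inr r)) ∈ J := by
    intro r
    apply Ideal.subset_span
    exact ⟨_, Or.inr (Or.inr ⟨r, rfl⟩), by simp [tv, X]⟩
  rcases g with i | j | j
  · exact h1 i
  · exact J.sum_mem fun i _ => J.mul_mem_left _ (h2 _)
  · exact J.sum_mem fun i _ => J.mul_mem_left _ (J.sum_mem fun p _ => J.mul_mem_left _ (h3 _))

lemma soc_not_mem [DecidableEq σ] :
    soc a (tv K a e) ∉ Ideal.span (Set.range (gen a (tv K a e))) := by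
  intro h
  have hle : Ideal.span (Set.range (gen a (tv K a e))) ≤
      Ideal.span ((fun d => monomial d (1 : K)) '' expo a e) := by
    rw [Ideal.span_le]
    rintro _ ⟨g, rfl⟩
    exact gen_mem K a e g
  have h' := hle h
  set d0 : σ →₀ ℕ := (∑ i : Fin a, Finsupp.single (e (Sum.inl i)) 1) +
    ∑ p : Fin a × Fin a, Finsupp.single (e (Sum.inr (Sum.inl p))) 1 with hd0
  have hs : soc a (tv K a e) = monomial d0 (1 : K) := by
    rw [hd0, ← one_mul (1 : K), ← monomial_mul, monomial_sum_one, monomial_sum_one]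
    rfl
  rw [hs, mem_ideal_span_monomial_image] at h'
  obtain ⟨d, hd, hdle⟩ := h' d0 (by simp)
  rcases hd with ⟨i, rfl⟩ | ⟨p, rfl⟩ | ⟨r, rfl⟩
  · have := hdle (e (Sum.inl i))
    simp [hd0, Finsupp.single_apply] at this
  · have := hdle (e (Sum.inr (Sum.inl p)))
    simp [hd0, Finsupp.single_apply] at this
  · have := hdle (e (Sum.inr (Sum.inr r)))
    simp [hd0, Finsupp.single_apply] at this

end poly

end Pool.Agent.H794R3.Stillman
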