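import Mathlib

/-! If a module over a commutative ring has a nonzero element killed by a weakly regular
sequence of length `N`, then it has no projective resolution of length `< N`. -/

set_option autoImplicit false

universe u

open CategoryTheory Abelian RingTheory.Sequence

namespace Pool.Agent.H794R3.Stillman

variable {R : Type u} [CommRing R]

/-- A flat module inherits weakly regular sequences of the ring. -/
lemma weaklyRegular_of_flat (rs : List R) (h : IsWeaklyRegular R rs)
    (P : Type u) [AddCommGroup P] [Module R P] [Module.Flat R P] :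
    IsWeaklyRegular P rs := by
  have h1 : IsWeaklyRegular (TensorProduct R P R) rs := h.isWeaklyRegular_lTensor
  exact ((TensorProduct.rid R P).isWeaklyRegular_congr rs).1 h1

/-- Rees: Ext vanishing below the length of a regular sequence. -/
lemma ext_subsingleton_of_weaklyRegular (K : ModuleCat.{u} R) (rs : List R)
    (hK : ∀ r ∈ rs, ∀ z : K, r • z = 0) :
    ∀ (M : ModuleCat.{u} R), IsWeaklyRegular M rs →
      ∀ i : ℕ, i < rs.length → Subsingleton (Ext K M i) := by
  induction rs with
  | nil => intro M _ i hi; simp at hi
  | cons x rs ih =>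
    intro M hM i hi
    rw [isWeaklyRegular_cons_iff] at hM
    have hxK : (x • 𝟙 K : K ⟶ K) = 0 := by
      ext z
      exact hK x (by simp) z
    cases i with
    | zero =>
      refine ⟨fun a b => ?_⟩
      have hs : Subsingleton (K →ₗ[R] M) :=
        hM.1.linearMap_subsingleton_of_mem_annihilator
          (Module.mem_annihilator.2 (fun z => hK x (by simp) z))
      apply Ext.homEquiv₀.injective
      ext z
      exact congrArg (fun f : K →ₗ[R] M => f z) (Subsingleton.elim
        (Ext.homEquiv₀ a).hom (Ext.homEquiv₀ b).hom)
    | succ j =>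
      have ih' := ih (fun r hr => hK r (by simp [hr])) (ModuleCat.of R (QuotSMulTop x M)) hM.2 j
        (by simpa using hi)
      have key : ∀ e : Ext K M (j + 1), e = 0 := by
        intro e
        have hS := hM.1.smulShortComplex_shortExact
        have h0 : e.comp (Ext.mk₀ (M.smulShortComplex x).f) (add_zero (j + 1)) = 0 := by
          change e.comp (Ext.mk₀ (x • 𝟙 M : M ⟶ M)) (add_zero (j + 1)) = 0
          have h1 : e.comp (Ext.mk₀ (x • 𝟙 M)) (add_zero (j + 1)) = x • e := by
            rw [Ext.mk₀_smul, Ext.comp_smul, Ext.comp_mk₀_id]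
          have h2 : (Ext.mk₀ (x • 𝟙 K)).comp e (zero_add (j + 1)) = x • e := by
            rw [Ext.mk₀_smul, Ext.smul_comp, Ext.mk₀_id_comp]
          rw [h1, ← h2, hxK, Ext.mk₀_zero, Ext.zero_comp]
        obtain ⟨e', he'⟩ := Ext.covariant_sequence_exact₁ K hS e h0 (rfl : j + 1 = j + 1)
        have h3 : e' = 0 := by
          have : Subsingleton (Ext K (M.smulShortComplex x).X₃ j) := ih'
          exact Subsingleton.elim _ _
        rw [← he', h3]
        exact Ext.zero_comp K j hS.extClass _ _
      exact ⟨fun a b => by rw [key a, key b]⟩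

/-- dimension shifting -/
lemma ext_subsingleton_of_pd (K : ModuleCat.{u} R) (N : ℕ)
    (hK : ∀ (P : ModuleCat.{u} R) [Projective P] (i : ℕ), i < N → Subsingleton (Ext K P i)) :
    ∀ (p : ℕ) (M : ModuleCat.{u} R), HasProjectiveDimensionLT M (p + 1) →
      ∀ i : ℕ, i + p < N → Subsingleton (Ext K M i) := by
  intro p
  induction p with
  | zero =>
    intro M hM i hi
    have : Projective M := projective_iff_hasProjectiveDimensionLT_one.2 hM
    exact hK M i (by omega)
  | succ p ih =>
    intro M hM i hi
    obtain ⟨pp⟩ := EnoughProjectives.presentation M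
    have hP := pp.projective
    have hfe := pp.epi
    let P := pp.p
    let f : P ⟶ M := pp.f
    have hfe' : Epi f := hfe
    have hP' : Projective P := hP
    have hS : (ShortComplex.mk (Limits.kernel.ι f) f (Limits.kernel.condition f)).ShortExact :=
      { exact := ShortComplex.exact_kernel f }
    have h1 : HasProjectiveDimensionLT (Limits.kernel f) (p + 1) := by
      have : HasProjectiveDimensionLT P 1 := inferInstance
      exact hS.hasProjectiveDimensionLT_X₁ (p + 1)
        (hasProjectiveDimensionLT_of_ge P 1 (p + 1) (by omega)) hM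
    have h2 := ih (Limits.kernel f) h1 (i + 1) (by omega)
    have key : ∀ e : Ext K M i, e = 0 := by
      intro e
      obtain ⟨e', he'⟩ := Ext.covariant_sequence_exact₃ K hS e (rfl : i + 1 = i + 1)
        (Subsingleton.elim _ _)
      rw [← he']
      have := hK P i (by omega)
      have : e' = 0 := Subsingleton.elim _ _
      rw [this, Ext.zero_comp]
    exact ⟨fun a b => by rw [key a, key b]⟩

/-- A projective resolution vanishing above `L` bounds the projective dimension. -/
lemma pd_of_resolution (M : ModuleCat.{u} R) (P : ProjectiveResolution M) (L : ℕ)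
    (h : ∀ i : ℕ, L < i → Limits.IsZero (P.complex.X i)) :
    HasProjectiveDimensionLT M (L + 1) := by
  apply HasProjectiveDimensionLT.mk
  intro i hi Y e
  obtain ⟨f, hf, rfl⟩ := P.extMk_surjective e (i + 1) rfl
  have hf0 : f = 0 := (h i (by omega)).eq_of_src _ _
  subst hf0
  simp

/-- The criterion. -/
theorem no_short_resolution (rs : List R) (hrs : IsWeaklyRegular R rs)
    (M : ModuleCat.{u} R) (z : M) (hz : z ≠ 0) (hkill : ∀ r ∈ rs, r • z = 0)
    (L : ℕ) (hL : L < rs.length) (P : ProjectiveResolution M)
    (h : ∀ i : ℕ, L < i → Limits.IsZero (P.complex.X i)) : False := by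
  set I : Ideal R := Ideal.span {r | r ∈ rs} with hI
  let K : ModuleCat.{u} R := ModuleCat.of R (R ⧸ I)
  have hKann : ∀ r ∈ rs, ∀ w : K, r • w = 0 := by
    intro r hr w
    obtain ⟨w, rfl⟩ := Ideal.Quotient.mk_surjective w
    change r • (Ideal.Quotient.mk I w) = 0
    rw [← Ideal.Quotient.mk_eq_mk, ← Submodule.Quotient.mk_smul, Submodule.Quotient.mk_eq_zero]
    exact I.mul_mem_right w (Ideal.subset_span hr)
  have hproj : ∀ (Q : ModuleCat.{u} R) [Projective Q] (i : ℕ), i < rs.length →
      Subsingleton (Ext K Q i) := by
    intro Q hQ i hi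
    have : Module.Projective R Q := (IsProjective.iff_projective Q).2 hQ
    exact ext_subsingleton_of_weaklyRegular K rs hKann Q (weaklyRegular_of_flat rs hrs Q) i hi
  have hpd := pd_of_resolution M P L h
  have hsub : Subsingleton (Ext K M 0) :=
    ext_subsingleton_of_pd K rs.length hproj L M hpd 0 (by omega)
  have hle : I ≤ LinearMap.ker (LinearMap.toSpanSingleton R M z) := by
    rw [hI]
    rw [Ideal.span_le]
    intro r hr
    rw [SetLike.mem_coe, LinearMap.mem_ker, LinearMap.toSpanSingleton_apply]
    exact hkill r hr
  let f : (R ⧸ I) →ₗ[R] M := Submodule.liftQ I (LinearMap.toSpanSingleton R M z) hle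
  have hf : f (Submodule.Quotient.mk 1) = z := by
    exact one_smul R z
  let g : K ⟶ M := ModuleCat.ofHom f
  have hg : g = 0 := by
    apply Ext.homEquiv₀.symm.injective
    exact Subsingleton.elim _ _
  apply hz
  rw [← hf]
  have : g.hom (Submodule.Quotient.mk 1) = 0 := by rw [hg]; rfl
  exact this

end Pool.Agent.H794R3.Stillman
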